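import Pool.Agent.N993.WX.Stm

set_option autoImplicit false

/-!
# WX/TAIL: few words have short reductions
-/

namespace Pool.Agent.N441.WX.TAIL

open Finset Pool.Agent.N993.WX

variable {n : ℕ}

theorem red_out (Y : Finset (Fin n)) (z : Fin n × Bool) (w : List (Fin n × Bool)) (h : z.1 ∉ Y) :
    red Y (z :: w) = red Y w := by
  unfold red
  rw [List.filter_cons_of_neg (by simpa using h)]

theorem red_in (Y : Finset (Fin n)) (z : Fin n × Bool) (w : List (Fin n × Bool)) (h : z.1 ∈ Y) :
    red Y (z :: w) = List.casesOn (red Y w) [z] fun hd tl =>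
        if z.1 = hd.1 ∧ z.2 = not hd.2 then tl else z :: hd :: tl := by
  unfold red
  rw [List.filter_cons_of_pos (by simpa using h), FreeGroup.reduce.cons]

theorem sum_half (Y : Finset (Fin n)) (P : ℝ) :
    ∑ z : Fin n × Bool, (if z.1 ∈ Y then P / 2 else P) = (2 * n - Y.card) * P := by
  rw [Fintype.sum_prod_type]
  have h1 : ∀ a : Fin n, ∑ _b : Bool, (if a ∈ Y then P / 2 else P) =
      2 * P - if a ∈ Y then P else 0 := by
    intro a
    rw [Fintype.sum_bool]
    split_ifs <;> ring
  simp only [h1]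
  rw [Finset.sum_sub_distrib, Finset.sum_ite_mem, Finset.univ_inter, Finset.sum_const,
    Finset.sum_const, Finset.card_univ, Fintype.card_fin, nsmul_eq_mul, nsmul_eq_mul]
  ring

theorem step (Y : Finset (Fin n)) (hY : 2 ≤ Y.card) (w : List (Fin n × Bool)) :
    ∑ z : Fin n × Bool, (1 / 2 : ℝ) ^ (red Y (z :: w)).length ≤
      (2 * n - 1 / 2) * (1 / 2 : ℝ) ^ (red Y w).length := by
  have hY' : (2 : ℝ) ≤ Y.card := by exact_mod_cast hY
  cases hv : red Y w with
  | nil =>
    have h1 : ∀ z : Fin n × Bool, (1 / 2 : ℝ) ^ (red Y (z :: w)).length ≤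
        if z.1 ∈ Y then (1 : ℝ) / 2 else 1 := by
      intro z
      split_ifs with hz
      · rw [red_in Y z w hz, hv]
        simp
      · rw [red_out Y z w hz, hv]
        simp
    refine (Finset.sum_le_sum fun z _ => h1 z).trans ?_
    rw [sum_half Y 1]
    simp only [List.length_nil, pow_zero, mul_one]
    linarith
  | cons hd tl =>
    set P : ℝ := (1 / 2 : ℝ) ^ (hd :: tl).length with hP
    have hP0 : 0 < P := by positivity
    have h1 : ∀ z : Fin n × Bool, (1 / 2 : ℝ) ^ (red Y (z :: w)).length ≤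
        (if z.1 ∈ Y then P / 2 else P) + if z = (hd.1, !hd.2) then 3 / 2 * P else 0 := by
      intro z
      by_cases hz : z.1 ∈ Y
      · rw [if_pos hz, red_in Y z w hz, hv]
        by_cases hc : z.1 = hd.1 ∧ z.2 = !hd.2
        · have hc' : z = (hd.1, !hd.2) := Prod.ext hc.1 hc.2
          rw [if_pos hc']
          simp only [if_pos hc]
          have h2 : (1 / 2 : ℝ) ^ tl.length = 2 * P := by
            rw [hP, List.length_cons, pow_succ]; ring
          rw [h2]
          linarith
        · have hc' : ¬ z = (hd.1, !hd.2) := fun h => hc (by rw [h]; exact ⟨rfl, rfl⟩)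
          rw [if_neg hc']
          simp only [if_neg hc]
          have h2 : (1 / 2 : ℝ) ^ (z :: hd :: tl).length = P / 2 := by
            rw [hP, List.length_cons, pow_succ]; ring
          rw [h2, add_zero]
      · rw [if_neg hz, red_out Y z w hz, hv]
        have : (0 : ℝ) ≤ if z = (hd.1, !hd.2) then 3 / 2 * P else 0 := by
          split_ifs
          · positivity
          · exact le_rfl
        linarith
    refine (Finset.sum_le_sum fun z _ => h1 z).trans ?_
    rw [Finset.sum_add_distrib, sum_half Y P, Finset.sum_ite_eq' Finset.univ (hd.1, !hd.2),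
      if_pos (Finset.mem_univ _)]
    nlinarith

theorem total (Y : Finset (Fin n)) (hY : 2 ≤ Y.card) (ℓ : ℕ) :
    ∑ u : Fin ℓ → Fin n × Bool, (1 / 2 : ℝ) ^ (red Y (List.ofFn u)).length ≤
      (2 * n - 1 / 2) ^ ℓ := by
  have hn : 2 ≤ n := hY.trans (by simpa using Finset.card_le_univ Y)
  have hn' : (2 : ℝ) ≤ n := by exact_mod_cast hn
  induction ℓ with
  | zero =>
    rw [pow_zero]
    simp [red]
  | succ ℓ ih =>
    rw [← (Fin.consEquiv fun _ : Fin (ℓ + 1) => Fin n × Bool).sum_comp, Fintype.sum_prod_type,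
      Finset.sum_comm]
    have h1 : ∀ u : Fin ℓ → Fin n × Bool, ∑ z : Fin n × Bool,
        (1 / 2 : ℝ) ^ (red Y (List.ofFn ((Fin.consEquiv fun _ : Fin (ℓ + 1) => Fin n × Bool)
          (z, u)))).length ≤ (2 * n - 1 / 2) * (1 / 2 : ℝ) ^ (red Y (List.ofFn u)).length := by
      intro u
      refine le_trans (le_of_eq ?_) (step Y hY (List.ofFn u))
      refine Finset.sum_congr rfl fun z _ => ?_
      have h2 : List.ofFn ((Fin.consEquiv fun _ : Fin (ℓ + 1) => Fin n × Bool) (z, u)) =
          z :: List.ofFn u := by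
        rw [List.ofFn_succ]
        rfl
      rw [h2]
    refine (Finset.sum_le_sum fun u _ => h1 u).trans ?_
    rw [← Finset.mul_sum, pow_succ']
    exact mul_le_mul_of_nonneg_left ih (by linarith)

theorem t_tail : S_TAIL := by
  intro n ℓ K Y hY
  rw [Nat.card_eq_fintype_card, Fintype.card_subtype]
  have h1 : ((Finset.univ.filter fun u : Fin ℓ → Fin n × Bool =>
      (red Y (List.ofFn u)).length < K).card : ℝ) ≤
      ∑ u : Fin ℓ → Fin n × Bool, 2 ^ K * (1 / 2 : ℝ) ^ (red Y (List.ofFn u)).length := by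
    rw [Finset.card_eq_sum_ones, Nat.cast_sum, Finset.sum_filter]
    refine Finset.sum_le_sum fun u _ => ?_
    split_ifs with h
    · rw [Nat.cast_one, one_div, inv_pow, ← div_eq_mul_inv, le_div_iff₀ (by positivity), one_mul]
      exact pow_le_pow_right₀ one_le_two h.le
    · positivity
  refine h1.trans ?_
  rw [← Finset.mul_sum]
  exact mul_le_mul_of_nonneg_left (total Y hY ℓ) (by positivity)

end Pool.Agent.N441.WX.TAIL
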